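import Pool.Agent.Helper15.RA.GoalsH

/-!
# Packet RA-NF (MP_cc6379_al): the normal form theorem for graph products, as an action on reduced syllable lists.

Syllable lists are taken modulo the shuffle relation `Sh` (generated by exchanging two neighbouring syllables with adjacent vertices). `co v w`
is the available `v`-syllable of `w` (`1` if there is none), `rem v w` the list without it, and
`act v g w = push v (g * co v w) (rem v w)`.
-/

set_option autoImplicit false
set_option linter.unusedSectionVars false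

noncomputable section

namespace Pool.Agent.Helper87.RA

open Classical

variable {V : Type} (Γ : SimpleGraph V) {G : V → Type} [∀ v, Group (G v)]

/-- The available `v`-syllable, `1` if there is none. -/
def co (v : V) : List (Σ v, G v) → G v
  | [] => 1
  | x :: w => if h : x.1 = v then h ▸ x.2 else if Γ.Adj x.1 v then co v w else 1

/-- The list without its available `v`-syllable. -/
def rem (v : V) : List (Σ v, G v) → List (Σ v, G v)
  | [] => []
  | x :: w => if x.1 = v then w else if Γ.Adj x.1 v then x :: rem v w else x :: w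

/-- Put a syllable in front of a list, nothing if it is trivial. -/
def push (v : V) (g : G v) (w : List (Σ v, G v)) : List (Σ v, G v) := if g = 1 then w else ⟨v, g⟩ :: w

/-- The action on lists. -/
def actL (v : V) (g : G v) (w : List (Σ v, G v)) : List (Σ v, G v) := push v (g * co Γ v w) (rem Γ v w)

/-- Reduced lists. -/
def Red : List (Σ v, G v) → Prop
  | [] => True
  | x :: w => x.2 ≠ 1 ∧ co Γ x.1 w = 1 ∧ Red w

/-- The shuffle relation. -/
inductive Sh : List (Σ v, G v) → List (Σ v, G v) → Prop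
  | nil : Sh [] []
  | cons (x : Σ v, G v) {a b : List (Σ v, G v)} : Sh a b → Sh (x :: a) (x :: b)
  | swap (x y : Σ v, G v) (a : List (Σ v, G v)) : Γ.Adj x.1 y.1 → Sh (x :: y :: a) (y :: x :: a)
  | trans {a b c : List (Σ v, G v)} : Sh a b → Sh b c → Sh a c

variable {Γ}

lemma Sh.refl (a : List (Σ v, G v)) : Sh Γ a a := by
  induction a with
  | nil => exact .nil
  | cons x a ih => exact .cons x ih

lemma Sh.symm {a b : List (Σ v, G v)} (h : Sh Γ a b) : Sh Γ b a := by
  induction h with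
  | nil => exact .nil
  | cons x _ ih => exact .cons x ih
  | swap x y a h => exact .swap y x a h.symm
  | trans _ _ ih1 ih2 => exact .trans ih2 ih1

lemma Sh.length {a b : List (Σ v, G v)} (h : Sh Γ a b) : a.length = b.length := by
  induction h with
  | nil => rfl
  | cons x _ ih => simp [ih]
  | swap x y a h => simp
  | trans _ _ ih1 ih2 => exact ih1.trans ih2

@[simp] lemma co_nil (v : V) : co Γ v ([] : List (Σ v, G v)) = 1 := rfl
@[simp] lemma rem_nil (v : V) : rem Γ v ([] : List (Σ v, G v)) = [] := rfl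

@[simp] lemma co_self (v : V) (g : G v) (w : List (Σ v, G v)) : co Γ v (⟨v, g⟩ :: w) = g := by
  simp [co]

@[simp] lemma rem_self (v : V) (g : G v) (w : List (Σ v, G v)) : rem Γ v (⟨v, g⟩ :: w) = w := by
  simp [rem]

lemma co_adj {v : V} {x : Σ v, G v} (h : Γ.Adj x.1 v) (w : List (Σ v, G v)) :
    co Γ v (x :: w) = co Γ v w := by
  simp [co, h, h.ne]

lemma rem_adj {v : V} {x : Σ v, G v} (h : Γ.Adj x.1 v) (w : List (Σ v, G v)) :
    rem Γ v (x :: w) = x :: rem Γ v w := by
  simp [rem, h, h.ne]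

lemma co_nadj {v : V} {x : Σ v, G v} (h : ¬ Γ.Adj x.1 v) (h' : x.1 ≠ v) (w : List (Σ v, G v)) :
    co Γ v (x :: w) = 1 := by
  simp [co, h, h']

lemma rem_nadj {v : V} {x : Σ v, G v} (h : ¬ Γ.Adj x.1 v) (h' : x.1 ≠ v) (w : List (Σ v, G v)) :
    rem Γ v (x :: w) = x :: w := by
  simp [rem, h, h']

/-- The three cases for the head of a list. -/
lemma head_cases (Γ : SimpleGraph V) (v : V) (x : Σ v, G v) :
    (∃ g : G v, x = ⟨v, g⟩) ∨ (x.1 ≠ v ∧ Γ.Adj x.1 v) ∨ (x.1 ≠ v ∧ ¬ Γ.Adj x.1 v) := by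
  by_cases h : x.1 = v
  · left
    obtain ⟨u, g⟩ := x
    obtain rfl : u = v := h
    exact ⟨g, rfl⟩
  · by_cases h' : Γ.Adj x.1 v
    · exact Or.inr (Or.inl ⟨h, h'⟩)
    · exact Or.inr (Or.inr ⟨h, h'⟩)

lemma Sh.co {a b : List (Σ v, G v)} (h : Sh Γ a b) (v : V) : co Γ v a = co Γ v b := by
  induction h with
  | nil => rfl
  | cons x _ ih =>
    rcases head_cases Γ v x with ⟨g, rfl⟩ | ⟨_, h⟩ | ⟨h1, h2⟩
    · simp
    · rw [co_adj h, co_adj h, ih]
    · rw [co_nadj h2 h1, co_nadj h2 h1]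
  | swap x y a h =>
    rcases head_cases Γ v x with ⟨g, rfl⟩ | ⟨_, h1⟩ | ⟨h1, h2⟩
    · rw [co_self, co_adj h.symm, co_self]
    · rcases head_cases Γ v y with ⟨g, rfl⟩ | ⟨_, h3⟩ | ⟨h3, h4⟩
      · rw [co_adj h1, co_self, co_self]
      · rw [co_adj h1, co_adj h3, co_adj h3, co_adj h1]
      · rw [co_adj h1, co_nadj h4 h3, co_nadj h4 h3]
    · rcases head_cases Γ v y with ⟨g, rfl⟩ | ⟨_, h3⟩ | ⟨h3, h4⟩
      · exact absurd h h2
      · rw [co_nadj h2 h1, co_adj h3, co_nadj h2 h1]
      · rw [co_nadj h2 h1, co_nadj h4 h3]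
  | trans _ _ ih1 ih2 => exact ih1.trans ih2

lemma Sh.rem {a b : List (Σ v, G v)} (h : Sh Γ a b) (v : V) : Sh Γ (rem Γ v a) (rem Γ v b) := by
  induction h with
  | nil => exact .nil
  | cons x h' ih =>
    rcases head_cases Γ v x with ⟨g, rfl⟩ | ⟨_, h⟩ | ⟨h1, h2⟩
    · simpa using h'
    · rw [rem_adj h, rem_adj h]; exact .cons x ih
    · rw [rem_nadj h2 h1, rem_nadj h2 h1]; exact .cons x h'
  | swap x y a h =>
    rcases head_cases Γ v x with ⟨g, rfl⟩ | ⟨_, h1⟩ | ⟨h1, h2⟩
    · rw [rem_self, rem_adj h.symm, rem_self]; exact .refl _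
    · rcases head_cases Γ v y with ⟨g, rfl⟩ | ⟨_, h3⟩ | ⟨h3, h4⟩
      · rw [rem_adj h1, rem_self, rem_self]; exact .refl _
      · rw [rem_adj h1, rem_adj h3, rem_adj h3, rem_adj h1]; exact .swap x y _ h
      · rw [rem_adj h1, rem_nadj h4 h3, rem_nadj h4 h3]; exact .swap x y _ h
    · rcases head_cases Γ v y with ⟨g, rfl⟩ | ⟨_, h3⟩ | ⟨h3, h4⟩
      · exact absurd h h2
      · rw [rem_nadj h2 h1, rem_adj h3, rem_nadj h2 h1]; exact .swap x y _ h
      · rw [rem_nadj h2 h1, rem_nadj h4 h3]; exact .swap x y _ h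
  | trans _ _ ih1 ih2 => exact ih1.trans ih2

lemma co_rem {u v : V} (huv : Γ.Adj u v) (l : List (Σ v, G v)) :
    co Γ u (rem Γ v l) = co Γ u l := by
  induction l with
  | nil => rfl
  | cons x m ih =>
    rcases head_cases Γ v x with ⟨g, rfl⟩ | ⟨_, h⟩ | ⟨h1, h2⟩
    · rw [rem_self, co_adj (x := ⟨v, g⟩) huv.symm]
    · rw [rem_adj h]
      rcases head_cases Γ u x with ⟨g, rfl⟩ | ⟨_, h'⟩ | ⟨h1', h2'⟩
      · simp
      · rw [co_adj h', co_adj h', ih]
      · rw [co_nadj h2' h1', co_nadj h2' h1']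
    · rw [rem_nadj h2 h1]

lemma rem_rem {u v : V} (huv : Γ.Adj u v) (l : List (Σ v, G v)) :
    rem Γ u (rem Γ v l) = rem Γ v (rem Γ u l) := by
  induction l with
  | nil => rfl
  | cons x m ih =>
    rcases head_cases Γ v x with ⟨g, rfl⟩ | ⟨hv, h⟩ | ⟨h1, h2⟩
    · rw [rem_self, rem_adj (x := ⟨v, g⟩) huv.symm, rem_self]
    · rw [rem_adj h]
      rcases head_cases Γ u x with ⟨g, rfl⟩ | ⟨_, h'⟩ | ⟨h1', h2'⟩
      · simp
      · rw [rem_adj h', rem_adj h', rem_adj h, ih]
      · rw [rem_nadj h2' h1', rem_nadj h2' h1', rem_adj h]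
    · rw [rem_nadj h2 h1]
      rcases head_cases Γ u x with ⟨g, rfl⟩ | ⟨_, h'⟩ | ⟨h1', h2'⟩
      · exact absurd huv h2
      · rw [rem_adj h', rem_nadj h2 h1]
      · rw [rem_nadj h2' h1', rem_nadj h2 h1]

lemma push_one (v : V) (w : List (Σ v, G v)) : push v (1 : G v) w = w := by simp [push]

lemma push_ne {v : V} {g : G v} (h : g ≠ 1) (w : List (Σ v, G v)) : push v g w = ⟨v, g⟩ :: w := by
  simp [push, h]

lemma Sh.push {a b : List (Σ v, G v)} (h : Sh Γ a b) (v : V) (g : G v) :
    Sh Γ (push v g a) (push v g b) := by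
  by_cases hg : g = 1
  · subst hg; simpa [push_one] using h
  · rw [push_ne hg, push_ne hg]; exact .cons _ h

lemma Sh.act {a b : List (Σ v, G v)} (h : Sh Γ a b) (v : V) (g : G v) :
    Sh Γ (actL Γ v g a) (actL Γ v g b) := by
  rw [actL, actL, h.co v]
  exact (h.rem v).push v _

lemma red_of_sh {a b : List (Σ v, G v)} (h : Sh Γ a b) : Red Γ a ↔ Red Γ b := by
  induction h with
  | nil => rfl
  | cons x h ih => simp only [Red, ih, h.co x.1]
  | swap x y a h =>
    simp only [Red, co_adj h, co_adj h.symm]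
    tauto
  | trans _ _ ih1 ih2 => exact ih1.trans ih2

lemma rem_eq_self {v : V} {w : List (Σ v, G v)} (hw : Red Γ w) (h : co Γ v w = 1) : rem Γ v w = w := by
  induction w with
  | nil => rfl
  | cons x m ih =>
    rcases head_cases Γ v x with ⟨g, rfl⟩ | ⟨hv, h'⟩ | ⟨h1, h2⟩
    · rw [co_self] at h; exact absurd h hw.1
    · rw [co_adj h'] at h; rw [rem_adj h', ih hw.2.2 h]
    · rw [rem_nadj h2 h1]

lemma co_rem_self {v : V} {w : List (Σ v, G v)} (hw : Red Γ w) : co Γ v (rem Γ v w) = 1 := by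
  induction w with
  | nil => rfl
  | cons x m ih =>
    rcases head_cases Γ v x with ⟨g, rfl⟩ | ⟨hv, h'⟩ | ⟨h1, h2⟩
    · rw [rem_self]; exact hw.2.1
    · rw [rem_adj h', co_adj h', ih hw.2.2]
    · rw [rem_nadj h2 h1, co_nadj h2 h1]

lemma red_rem {v : V} {w : List (Σ v, G v)} (hw : Red Γ w) : Red Γ (rem Γ v w) := by
  induction w with
  | nil => trivial
  | cons x m ih =>
    rcases head_cases Γ v x with ⟨g, rfl⟩ | ⟨hv, h'⟩ | ⟨h1, h2⟩
    · rw [rem_self]; exact hw.2.2
    · rw [rem_adj h']; exact ⟨hw.1, by rw [co_rem h']; exact hw.2.1, ih hw.2.2⟩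
    · rw [rem_nadj h2 h1]; exact hw

lemma red_push {v : V} {w : List (Σ v, G v)} (hw : Red Γ w) (h : co Γ v w = 1) (g : G v) :
    Red Γ (push v g w) := by
  by_cases hg : g = 1
  · subst hg; simpa [push_one] using hw
  · rw [push_ne hg]; exact ⟨hg, h, hw⟩

lemma red_act {v : V} {w : List (Σ v, G v)} (hw : Red Γ w) (g : G v) : Red Γ (actL Γ v g w) :=
  red_push (red_rem hw) (co_rem_self hw) _

lemma co_push_self {v : V} {w : List (Σ v, G v)} (h : co Γ v w = 1) (g : G v) :
    co Γ v (push v g w) = g := by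
  by_cases hg : g = 1
  · subst hg; simpa [push_one] using h
  · rw [push_ne hg, co_self]

lemma rem_push_self {v : V} {w : List (Σ v, G v)} (hw : Red Γ w) (h : co Γ v w = 1) (g : G v) :
    rem Γ v (push v g w) = w := by
  by_cases hg : g = 1
  · subst hg; rw [push_one, rem_eq_self hw h]
  · rw [push_ne hg, rem_self]

lemma co_push {u v : V} (huv : Γ.Adj u v) (g : G v) (w : List (Σ v, G v)) :
    co Γ u (push v g w) = co Γ u w := by
  by_cases hg : g = 1
  · subst hg; rw [push_one]
  · rw [push_ne hg, co_adj (x := ⟨v, g⟩) huv.symm]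

lemma rem_push {u v : V} (huv : Γ.Adj u v) (g : G v) (w : List (Σ v, G v)) :
    rem Γ u (push v g w) = push v g (rem Γ u w) := by
  by_cases hg : g = 1
  · subst hg; rw [push_one, push_one]
  · rw [push_ne hg, push_ne hg, rem_adj (x := ⟨v, g⟩) huv.symm]

lemma push_push {u v : V} (huv : Γ.Adj u v) (g : G u) (h : G v) (w : List (Σ v, G v)) :
    Sh Γ (push u g (push v h w)) (push v h (push u g w)) := by
  by_cases hg : g = 1
  · subst hg; rw [push_one, push_one]; exact .refl _
  · by_cases hh : h = 1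
    · subst hh; rw [push_one, push_one]; exact .refl _
    · rw [push_ne hg, push_ne hh, push_ne hh, push_ne hg]
      exact .swap _ _ _ huv

lemma sh_act_one {v : V} {w : List (Σ v, G v)} (hw : Red Γ w) :
    Sh Γ (push v (co Γ v w) (rem Γ v w)) w := by
  induction w with
  | nil => rw [co_nil, push_one]; exact .refl _
  | cons x m ih =>
    rcases head_cases Γ v x with ⟨g, rfl⟩ | ⟨hv, h'⟩ | ⟨h1, h2⟩
    · rw [co_self, rem_self, push_ne hw.1]; exact .refl _
    · rw [co_adj h', rem_adj h']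
      have := ih hw.2.2
      by_cases hg : co Γ v m = 1
      · rw [hg, push_one] at this ⊢; exact .cons _ this
      · rw [push_ne hg] at this ⊢
        exact .trans (.swap _ _ _ h'.symm) (.cons _ this)
    · rw [co_nadj h2 h1, rem_nadj h2 h1, push_one]; exact .refl _

lemma act_act {v : V} {w : List (Σ v, G v)} (hw : Red Γ w) (g h : G v) :
    actL Γ v g (actL Γ v h w) = actL Γ v (g * h) w := by
  simp only [actL]
  rw [co_push_self (co_rem_self hw), rem_push_self (red_rem hw) (co_rem_self hw), mul_assoc]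

lemma act_comm {u v : V} (huv : Γ.Adj u v) (g : G u) (h : G v) (w : List (Σ v, G v)) :
    Sh Γ (actL Γ u g (actL Γ v h w)) (actL Γ v h (actL Γ u g w)) := by
  simp only [actL]
  rw [co_push huv, co_rem huv, rem_push huv, co_push huv.symm, co_rem huv.symm, rem_push huv.symm,
    rem_rem huv]
  exact push_push huv _ _ _

lemma length_push (v : V) (g : G v) (w : List (Σ v, G v)) :
    (push v g w).length = w.length + (if g = 1 then 0 else 1) := by
  by_cases hg : g = 1
  · subst hg; simp [push_one]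
  · simp [push_ne hg, hg]

lemma length_eq {v : V} {w : List (Σ v, G v)} (hw : Red Γ w) :
    w.length = (rem Γ v w).length + (if co Γ v w = 1 then 0 else 1) := by
  rw [← length_push, (sh_act_one hw).length]

lemma co_of_len {v : V} {w : List (Σ v, G v)} (hw : Red Γ w) {g : G v}
    (h : (actL Γ v g w).length + 1 = w.length) : co Γ v w = g⁻¹ ∧ co Γ v w ≠ 1 := by
  have h1 := length_eq (v := v) hw
  rw [actL, length_push] at h
  split_ifs at h h1 with h2 h3 h3
  · omega
  · exact ⟨eq_inv_of_mul_eq_one_right h2, h3⟩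
  all_goals omega

lemma eq_of_len {v : V} {w : List (Σ v, G v)} (hw : Red Γ w) {g : G v}
    (h : (actL Γ v g w).length = w.length + 1) : actL Γ v g w = ⟨v, g⟩ :: w := by
  have h1 := length_eq (v := v) hw
  rw [actL, length_push] at h
  split_ifs at h h1 with h2 h3 h3
  · omega
  · omega
  · rw [actL, h3, mul_one, rem_eq_self hw h3, push_ne]
    rwa [h3, mul_one] at h2
  · omega

lemma adj_of_co {u v : V} (huv : u ≠ v) {w : List (Σ v, G v)} (h1 : co Γ u w ≠ 1) (h2 : co Γ v w ≠ 1) :
    Γ.Adj u v := by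
  induction w with
  | nil => exact absurd rfl h1
  | cons x m ih =>
    rcases head_cases Γ u x with ⟨g, rfl⟩ | ⟨hu, hu'⟩ | ⟨hu, hu'⟩
    · by_contra hc
      exact h2 (co_nadj (x := ⟨u, g⟩) hc huv _)
    · rcases head_cases Γ v x with ⟨g, rfl⟩ | ⟨hv, hv'⟩ | ⟨hv, hv'⟩
      · exact hu'.symm
      · rw [co_adj hu'] at h1; rw [co_adj hv'] at h2; exact ih h1 h2
      · exact absurd (co_nadj hv' hv _) h2
    · exact absurd (co_nadj hu' hu _) h1

lemma len_two {u v : V} (huv : u ≠ v) {w : List (Σ v, G v)} (hw : Red Γ w) {g : G u} {h : G v}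
    (h1 : (actL Γ u g w).length + 1 = w.length) (h2 : (actL Γ v h w).length + 1 = w.length) :
    Γ.Adj u v ∧ (actL Γ v h (actL Γ u g w)).length + 2 = w.length := by
  obtain ⟨a1, a2⟩ := co_of_len hw h1
  obtain ⟨b1, b2⟩ := co_of_len hw h2
  have hadj := adj_of_co huv a2 b2
  refine ⟨hadj, ?_⟩
  have e1 : actL Γ u g w = rem Γ u w := by rw [actL, a1, mul_inv_cancel, push_one]
  have e2 : actL Γ v h (rem Γ u w) = rem Γ v (rem Γ u w) := by
    rw [actL, co_rem hadj.symm, b1, mul_inv_cancel, push_one]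
  rw [e1, e2]
  have l1 := length_eq (v := u) hw
  have l2 := length_eq (v := v) (red_rem (v := u) hw)
  rw [co_rem hadj.symm, if_neg b2] at l2
  rw [if_neg a2] at l1
  omega

/-- The value of a list in a monoid. -/
def val {N : Type} [Monoid N] (f : ∀ v, G v → N) (w : List (Σ v, G v)) : N := (w.map fun x => f x.1 x.2).prod

lemma Sh.val {N : Type} [Monoid N] (f : ∀ v, G v → N)
    (hf : ∀ u v, Γ.Adj u v → ∀ g h, f u g * f v h = f v h * f u g) {a b : List (Σ v, G v)} (h : Sh Γ a b) :
    val f a = val f b := by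
  induction h with
  | nil => rfl
  | cons x _ ih =>
    simp only [RA.val, List.map_cons, List.prod_cons] at ih ⊢
    rw [ih]
  | swap x y a h =>
    simp only [RA.val, List.map_cons, List.prod_cons]
    rw [← mul_assoc, ← mul_assoc, hf _ _ h]
  | trans _ _ ih1 ih2 => exact ih1.trans ih2

/-- The setoid of shuffles on reduced lists. -/
def shSetoid (Γ : SimpleGraph V) (G : V → Type) [∀ v, Group (G v)] :
    Setoid {w : List (Σ v, G v) // Red Γ w} where
  r a b := Sh Γ a.1 b.1
  iseqv := ⟨fun _ => Sh.refl _, fun h => h.symm, fun h h' => h.trans h'⟩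

/-- RA-NF. -/
theorem h_nnf : Helper15.RA.N_NF := by
  intro V Γ G _
  let S := shSetoid Γ G
  let mk : {w : List (Σ v, G v) // Red Γ w} → Quotient S := fun w => Quotient.mk S w
  have hmk : ∀ a b : {w : List (Σ v, G v) // Red Γ w}, Sh Γ a.1 b.1 → mk a = mk b :=
    fun a b h => Quotient.sound h
  let act : ∀ v, G v → Quotient S → Quotient S := fun v g =>
    Quotient.map' (s₁ := S) (s₂ := S) (fun w => ⟨actL Γ v g w.1, red_act w.2 g⟩)
      (fun a b (h : Sh Γ a.1 b.1) => h.act v g)
  let len : Quotient S → ℕ := Quotient.lift (s := S) (fun w => w.1.length) (fun a b (h : Sh Γ a.1 b.1) => h.length)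
  have hact : ∀ v g (w : {w : List (Σ v, G v) // Red Γ w}),
      act v g (mk w) = mk ⟨actL Γ v g w.1, red_act w.2 g⟩ := fun _ _ _ => rfl
  have hlen : ∀ w : {w : List (Σ v, G v) // Red Γ w}, len (mk w) = w.1.length := fun _ => rfl
  have hind : ∀ P : Quotient S → Prop, (∀ w, P (mk w)) → ∀ y, P y := fun P h y => Quotient.ind h y
  refine ⟨Quotient S, mk ⟨[], trivial⟩, act, len, ?_, ?_, ?_, rfl, ?_, ?_, ?_, ?_⟩
  · intro v
    refine hind _ fun w => ?_
    rw [hact]
    apply hmk
    change Sh Γ (actL Γ v 1 w.1) w.1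
    rw [actL, one_mul]
    exact sh_act_one w.2
  · intro v g h
    refine hind _ fun w => ?_
    rw [hact, hact, hact]
    apply hmk
    change Sh Γ (actL Γ v (g * h) w.1) (actL Γ v g (actL Γ v h w.1))
    rw [act_act w.2]
    exact .refl _
  · intro u v huv g h
    refine hind _ fun w => ?_
    rw [hact, hact, hact, hact]
    apply hmk
    exact act_comm huv g h w.1
  · refine hind _ fun w hw => ?_
    obtain ⟨w, hr⟩ := w
    cases w with
    | nil => exact absurd rfl hw
    | cons x m =>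
      obtain ⟨v, g⟩ := x
      refine ⟨v, g, hr.1, ?_⟩
      rw [hact, hlen, hlen]
      change (actL Γ v g⁻¹ (⟨v, g⟩ :: m)).length + 1 = (⟨v, g⟩ :: m : List (Σ v, G v)).length
      rw [actL, co_self, rem_self, inv_mul_cancel, push_one]
      rfl
  · intro v
    refine hind _ fun w => ?_
    refine ⟨(co Γ v w.1)⁻¹, fun h hh => ?_⟩
    rw [hact, hact, hlen, hlen]
    change (actL Γ v h (actL Γ v (co Γ v w.1)⁻¹ w.1)).length = (actL Γ v (co Γ v w.1)⁻¹ w.1).length + 1
    rw [act_act w.2]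
    simp only [actL]
    rw [inv_mul_cancel, push_one, mul_assoc, inv_mul_cancel, mul_one, push_ne hh]
    rfl
  · intro u v huv g h
    refine hind _ fun w h1 h2 => ?_
    rw [hact, hlen, hlen] at h1 h2
    rw [hact, hact, hlen, hlen]
    exact len_two huv w.2 h1 h2
  · intro N _ f hf
    refine ⟨Quotient.lift (s := S) (fun w => val f w.1) (fun a b (h : Sh Γ a.1 b.1) => h.val f hf), rfl, ?_⟩
    intro v g
    refine hind _ fun w hg h => ?_
    rw [hact, hlen, hlen] at h
    rw [hact]
    have e := eq_of_len w.2 h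
    change val f (actL Γ v g w.1) = f v g * val f w.1
    rw [e]
    simp [val]

end Pool.Agent.Helper87.RA
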